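import Pool.Agent.H705.FP.Stm2

/-! # Fixed phases, second part (helper705): existence of the sum of the series in mean square (helper440) -/

set_option autoImplicit false

namespace Pool.Agent.H440.FP

open MeasureTheory Filter Topology Finset
open Pool.Agent.H705 Pool.Agent.H705.FP

theorem abs_le_of {x δ : ℝ} (hδ : 0 < δ) : |x| ≤ δ + x ^ 2 / δ := by
  have h : |x| * δ ≤ δ * δ + x ^ 2 := by
    nlinarith [sq_nonneg (|x| - δ), sq_abs x, mul_nonneg (abs_nonneg x) hδ.le]
  have h2 : δ + x ^ 2 / δ = (δ * δ + x ^ 2) / δ := by field_simp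
  rw [h2, le_div_iff₀ hδ]
  exact h

/-- from mean squares to means -/
theorem l1 {g : ℝ → ℝ} {T c δ : ℝ} (hm : Measurable g) (hδ : 0 < δ)
    (hi : IntegrableOn (fun y => g y ^ 2) (Set.Ioc T (T + 1)))
    (hc : ∫ y in Set.Ioc T (T + 1), g y ^ 2 ≤ c) :
    IntegrableOn g (Set.Ioc T (T + 1)) ∧ ∫ y in Set.Ioc T (T + 1), |g y| ≤ δ + c / δ := by
  have hk : IntegrableOn (fun _ : ℝ => δ) (Set.Ioc T (T + 1)) :=
    continuous_const.integrableOn_Ioc
  have hb : IntegrableOn (fun y => δ + g y ^ 2 / δ) (Set.Ioc T (T + 1)) := hk.add (hi.div_const δ)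
  have h1 : IntegrableOn g (Set.Ioc T (T + 1)) :=
    hb.mono' hm.aestronglyMeasurable (ae_of_all _ fun y => by
      rw [Real.norm_eq_abs]
      exact abs_le_of hδ)
  refine ⟨h1, ?_⟩
  calc ∫ y in Set.Ioc T (T + 1), |g y| ≤ ∫ y in Set.Ioc T (T + 1), (δ + g y ^ 2 / δ) :=
        integral_mono_ae h1.abs hb (ae_of_all _ fun y => abs_le_of hδ)
    _ = δ + (∫ y in Set.Ioc T (T + 1), g y ^ 2) / δ := by
        rw [integral_add hk (hi.div_const δ), integral_div]
        simp
    _ ≤ δ + c / δ := by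
        have := div_le_div_of_nonneg_right hc hδ.le
        linarith

theorem part_sub (W : ℕ → ℝ → ℝ) (y : ℝ) {N M : ℕ} (h : N ≤ M) :
    RO.part W M y - RO.part W N y = ∑ n ∈ Ico N M, W n y := by
  unfold RO.part
  rw [Finset.sum_Ico_eq_sub _ h]

theorem cont_part {W : ℕ → ℝ → ℝ} (hW : ∀ n, Continuous (W n)) (N : ℕ) :
    Continuous (fun y => RO.part W N y) := by
  unfold RO.part
  exact continuous_finsetSum _ fun n _ => hW n

theorem pow_pe (j : ℕ) : ((16 ^ j : ℕ) : ℝ) ^ (-(RO.pe 0)) = (1 / 4 : ℝ) ^ j := by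
  have h1 : RO.pe 0 = 1 / 2 := by
    unfold RO.pe
    norm_num
  have h2 : ((16 ^ j : ℕ) : ℝ) = ((4 : ℝ) ^ j) ^ (2 : ℝ) := by
    push_cast
    rw [show (2 : ℝ) = ((2 : ℕ) : ℝ) by norm_num, Real.rpow_natCast, ← pow_mul, mul_comm j 2, pow_mul]
    norm_num
  rw [h1, h2, ← Real.rpow_mul (by positivity)]
  norm_num
  rw [Real.rpow_neg_one, one_div, inv_pow]

theorem ae_conv {W : ℕ → ℝ → ℝ} (hW : ∀ n, Continuous (W n)) (hM : MSB W) :
    ∀ᵐ y ∂(volume : Measure ℝ), ∃ l, Tendsto (fun j : ℕ => RO.part W (16 ^ j) y) atTop (𝓝 l) := by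
  obtain ⟨C, hC, h⟩ := hM 0
  rw [← Measure.restrict_univ (μ := (volume : Measure ℝ)), ← iUnion_Ioc_intCast ℝ,
    ae_restrict_iUnion_iff]
  intro k
  set B : ℕ → ℝ → ℝ := fun j y => ∑ n ∈ Ico (16 ^ j) (16 ^ (j + 1)), W n y with hB
  have hBc : ∀ j, Continuous (B j) := fun j => continuous_finsetSum _ fun n _ => hW n
  have hint : ∀ j, ∫ y in Set.Ioc (k : ℝ) (k + 1), |B j y| ≤ (1 + C) * (1 / 2) ^ j := by
    intro j
    have h1 := h k (16 ^ j) (16 ^ (j + 1)) (Nat.one_le_pow _ _ (by norm_num))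
      (Nat.pow_le_pow_right (by norm_num) (Nat.le_succ j))
    rw [intervalIntegral.integral_of_le (by linarith), pow_pe] at h1
    have h2 := (l1 (hBc j).measurable (δ := (1 / 2) ^ j) (by positivity)
      ((hBc j).pow 2).integrableOn_Ioc h1).2
    refine h2.trans (le_of_eq ?_)
    have h3 : ((1 : ℝ) / 4) ^ j = (1 / 2) ^ j * (1 / 2) ^ j := by
      rw [← mul_pow]
      norm_num
    have h4 : (0 : ℝ) < (1 / 2) ^ j := by positivity
    rw [h3, ← mul_assoc, mul_div_assoc, div_self h4.ne']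
    ring
  have hlt : ∫⁻ y in Set.Ioc (k : ℝ) (k + 1), ∑' j, ENNReal.ofReal |B j y| ≠ ⊤ := by
    rw [lintegral_tsum fun j => ((hBc j).abs.measurable.ennreal_ofReal).aemeasurable]
    have h3 : ∀ j, ∫⁻ y in Set.Ioc (k : ℝ) (k + 1), ENNReal.ofReal |B j y| ≤
        ENNReal.ofReal ((1 + C) * (1 / 2) ^ j) := by
      intro j
      rw [← ofReal_integral_eq_lintegral_ofReal ((hBc j).abs.integrableOn_Ioc)
        (ae_of_all _ fun y => abs_nonneg _)]
      exact ENNReal.ofReal_le_ofReal (hint j)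
    refine ne_top_of_le_ne_top ?_ (ENNReal.tsum_le_tsum h3)
    have hsum : Summable fun j : ℕ => (1 + C) * (1 / 2 : ℝ) ^ j :=
      (summable_geometric_of_lt_one (by norm_num) (by norm_num)).mul_left _
    rw [← ENNReal.ofReal_tsum_of_nonneg (fun j => by positivity) hsum]
    exact ENNReal.ofReal_ne_top
  have hmeas : Measurable fun y => ∑' j, ENNReal.ofReal |B j y| :=
    Measurable.tsum fun j => (hBc j).abs.measurable.ennreal_ofReal
  filter_upwards [ae_lt_top hmeas hlt] with y hy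
  have hs : Summable fun j => |B j y| := by
    have h1 := ENNReal.summable_toReal hy.ne
    refine h1.congr fun j => ?_
    rw [ENNReal.toReal_ofReal (abs_nonneg _)]
  have hs2 : Summable fun j => B j y := hs.of_abs
  refine ⟨RO.part W 1 y + ∑' j, B j y, ?_⟩
  have h4 := hs2.hasSum.tendsto_sum_nat.const_add (RO.part W 1 y)
  refine h4.congr fun j => ?_
  have h5 : ∀ i, B i y = RO.part W (16 ^ (i + 1)) y - RO.part W (16 ^ i) y := fun i => by
    rw [part_sub W y (Nat.pow_le_pow_right (by norm_num) (Nat.le_succ i))]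
  rw [Finset.sum_congr rfl fun i _ => h5 i, Finset.sum_range_sub (fun i => RO.part W (16 ^ i) y),
    pow_zero]
  ring

theorem fatou {W : ℕ → ℝ → ℝ} (hW : ∀ n, Continuous (W n)) {S : ℝ → ℝ}
    (hl : ∀ᵐ y ∂(volume : Measure ℝ), Tendsto (fun j : ℕ => RO.part W (16 ^ j) y) atTop (𝓝 (S y)))
    {c T : ℝ} {N : ℕ} (hc : ∀ M, N ≤ M → ∫ y in T..T + 1, (∑ n ∈ Ico N M, W n y) ^ 2 ≤ c) :
    ∫⁻ y in Set.Ioc T (T + 1), ENNReal.ofReal ((S y - RO.part W N y) ^ 2) ≤ ENNReal.ofReal c := by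
  set g : ℕ → ℝ → ENNReal := fun j y =>
    ENNReal.ofReal ((RO.part W (16 ^ j) y - RO.part W N y) ^ 2) with hg
  have hgc : ∀ j, Continuous fun y => (RO.part W (16 ^ j) y - RO.part W N y) ^ 2 := fun j =>
    ((cont_part hW _).sub (cont_part hW N)).pow 2
  have hgm : ∀ j, Measurable (g j) := fun j => (hgc j).measurable.ennreal_ofReal
  have h1 : ∫⁻ y in Set.Ioc T (T + 1), ENNReal.ofReal ((S y - RO.part W N y) ^ 2) =
      ∫⁻ y in Set.Ioc T (T + 1), liminf (fun j => g j y) atTop := by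
    refine lintegral_congr_ae ((ae_restrict_of_ae hl).mono fun y hy => ?_)
    have h2 : Tendsto (fun j => g j y) atTop
        (𝓝 (ENNReal.ofReal ((S y - RO.part W N y) ^ 2))) :=
      ENNReal.tendsto_ofReal ((hy.sub_const _).pow 2)
    exact h2.liminf_eq.symm
  rw [h1]
  refine (lintegral_liminf_le hgm).trans ?_
  have h2 : ∀ᶠ j in atTop, ∫⁻ y in Set.Ioc T (T + 1), g j y ≤ ENNReal.ofReal c := by
    filter_upwards [eventually_ge_atTop N] with j hj
    have hN : N ≤ 16 ^ j := hj.trans (Nat.lt_pow_self (by norm_num)).le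
    have h3 := hc _ hN
    rw [intervalIntegral.integral_of_le (by linarith)] at h3
    rw [hg]
    rw [← ofReal_integral_eq_lintegral_ofReal (hgc j).integrableOn_Ioc
      (ae_of_all _ fun y => sq_nonneg _)]
    refine ENNReal.ofReal_le_ofReal ?_
    simp only [part_sub W _ hN]
    exact h3
  calc liminf (fun j => ∫⁻ y in Set.Ioc T (T + 1), g j y) atTop
      ≤ liminf (fun _ : ℕ => ENNReal.ofReal c) atTop := liminf_le_liminf h2
    _ = ENNReal.ofReal c := liminf_const _

theorem T_EXS : P_EXS := by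
  intro W hW hM
  obtain ⟨S, hS, hl⟩ := measurable_limit_of_tendsto_metrizable_ae
    (fun j : ℕ => (cont_part hW (16 ^ j)).measurable.aemeasurable) (ae_conv hW hM)
  have hDm : ∀ N, Measurable fun y => S y - RO.part W N y := fun N =>
    hS.sub (cont_part hW N).measurable
  refine ⟨S, hS, ?_, ?_⟩
  · obtain ⟨C, hC, h⟩ := hM 0
    have hf : ∀ (k : ℕ) (N : ℕ), 1 ≤ N → IntegrableOn (fun y => S y - RO.part W N y)
        (Set.Ioc (k : ℝ) (k + 1)) ∧ ∫ y in Set.Ioc (k : ℝ) (k + 1), |S y - RO.part W N y| ≤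
          (1 + C) * (N : ℝ) ^ (-(1 / 4 : ℝ)) := by
      intro k N hN
      have hN0 : (0 : ℝ) < N := by exact_mod_cast hN
      have h1 := fatou hW hl (T := k) (N := N) fun M hM' => h k N M hN hM'
      have hm2 : AEStronglyMeasurable (fun y => (S y - RO.part W N y) ^ 2)
          ((volume : Measure ℝ).restrict (Set.Ioc (k : ℝ) (k + 1))) :=
        ((hDm N).pow_const 2).aestronglyMeasurable
      have hi : IntegrableOn (fun y => (S y - RO.part W N y) ^ 2) (Set.Ioc (k : ℝ) (k + 1)) :=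
        (lintegral_ofReal_ne_top_iff_integrable hm2 (ae_of_all _ fun y => sq_nonneg _)).1
          (ne_top_of_le_ne_top ENNReal.ofReal_ne_top h1)
      have hc0 : 0 ≤ C * (N : ℝ) ^ (-(RO.pe 0)) := by positivity
      have hi2 : ∫ y in Set.Ioc (k : ℝ) (k + 1), (S y - RO.part W N y) ^ 2 ≤
          C * (N : ℝ) ^ (-(RO.pe 0)) := by
        rw [integral_eq_lintegral_of_nonneg_ae (ae_of_all _ fun y => sq_nonneg _) hm2]
        exact ENNReal.toReal_le_of_le_ofReal hc0 h1
      obtain ⟨h2, h3⟩ := l1 (hDm N) (δ := (N : ℝ) ^ (-(1 / 4 : ℝ))) (by positivity) hi hi2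
      refine ⟨h2, h3.trans (le_of_eq ?_)⟩
      have h4 : RO.pe 0 = 1 / 2 := by
        unfold RO.pe
        norm_num
      have h5 : (N : ℝ) ^ (-(1 / 2 : ℝ)) = (N : ℝ) ^ (-(1 / 4 : ℝ)) * (N : ℝ) ^ (-(1 / 4 : ℝ)) := by
        rw [← Real.rpow_add hN0]
        norm_num
      have h6 : (0 : ℝ) < (N : ℝ) ^ (-(1 / 4 : ℝ)) := by positivity
      rw [h4, h5, ← mul_assoc, mul_div_assoc, div_self h6.ne']
      ring
    have hadj : ∀ N, 1 ≤ N → ∀ K : ℕ, IntervalIntegrable (fun y => S y - RO.part W N y) volume 0 K ∧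
        ∫ y in (0 : ℝ)..K, |S y - RO.part W N y| ≤ K * ((1 + C) * (N : ℝ) ^ (-(1 / 4 : ℝ))) := by
      intro N hN K
      have h1 : ∀ k < K, IntervalIntegrable (fun y => S y - RO.part W N y) volume
          ((fun k : ℕ => (k : ℝ)) k) ((fun k : ℕ => (k : ℝ)) (k + 1)) := by
        intro k _
        show IntervalIntegrable _ volume (k : ℝ) ((k + 1 : ℕ) : ℝ)
        rw [Nat.cast_succ]
        exact (intervalIntegrable_iff_integrableOn_Ioc_of_le (by linarith)).2 (hf k N hN).1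
      have h2 := IntervalIntegrable.trans_iterate h1
      have h3 := intervalIntegral.sum_integral_adjacent_intervals (n := K)
        (a := fun k : ℕ => (k : ℝ)) (μ := volume) (f := fun y => |S y - RO.part W N y|)
        fun k hk => (h1 k hk).abs
      simp only [Nat.cast_zero] at h2 h3
      refine ⟨h2, ?_⟩
      rw [← h3]
      calc ∑ k ∈ range K, ∫ y in (k : ℝ)..((k + 1 : ℕ) : ℝ), |S y - RO.part W N y|
          ≤ ∑ k ∈ range K, (1 + C) * (N : ℝ) ^ (-(1 / 4 : ℝ)) := by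
            refine Finset.sum_le_sum fun k _ => ?_
            rw [Nat.cast_succ, intervalIntegral.integral_of_le (by linarith)]
            exact (hf k N hN).2
        _ = K * ((1 + C) * (N : ℝ) ^ (-(1 / 4 : ℝ))) := by
            rw [Finset.sum_const, Finset.card_range, nsmul_eq_mul]
    intro t ht
    have htK : t ≤ (⌈t⌉₊ : ℝ) := Nat.le_ceil t
    have hsub : ∀ N, 1 ≤ N → IntervalIntegrable (fun y => S y - RO.part W N y) volume 0 t := by
      intro N hN
      refine (hadj N hN ⌈t⌉₊).1.mono_set ?_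
      rw [Set.uIcc_of_le ht, Set.uIcc_of_le (ht.trans htK)]
      exact Set.Icc_subset_Icc_right htK
    have hpi : ∀ N, IntervalIntegrable (fun y => RO.part W N y) volume 0 t := fun N =>
      (cont_part hW N).intervalIntegrable _ _
    have hSi : IntervalIntegrable S volume 0 t := by
      have h1 := (hsub 1 le_rfl).add (hpi 1)
      refine h1.congr ?_
      intro y _
      exact sub_add_cancel _ _
    refine ⟨hSi, ?_⟩
    have hz : Tendsto (fun N : ℕ => ∫ y in (0 : ℝ)..t, (S y - RO.part W N y)) atTop (𝓝 0) := by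
      have hb : Tendsto (fun N : ℕ => (⌈t⌉₊ : ℝ) * ((1 + C) * (N : ℝ) ^ (-(1 / 4 : ℝ)))) atTop (𝓝 0) := by
        have h1 : Tendsto (fun N : ℕ => (N : ℝ) ^ (-(1 / 4 : ℝ))) atTop (𝓝 0) :=
          (tendsto_rpow_neg_atTop (by norm_num : (0 : ℝ) < 1 / 4)).comp tendsto_natCast_atTop_atTop
        have h2 := (h1.const_mul (1 + C)).const_mul (⌈t⌉₊ : ℝ)
        simpa using h2
      refine squeeze_zero_norm' ?_ hb
      filter_upwards [eventually_ge_atTop 1] with N hN
      rw [Real.norm_eq_abs]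
      refine (intervalIntegral.abs_integral_le_integral_abs ht).trans ?_
      refine le_trans ?_ (hadj N hN ⌈t⌉₊).2
      exact intervalIntegral.integral_mono_interval le_rfl ht htK
        (ae_of_all _ fun y => abs_nonneg _) (hadj N hN ⌈t⌉₊).1.abs
    have h1 := hz.const_sub (∫ y in (0 : ℝ)..t, S y)
    rw [sub_zero] at h1
    refine h1.congr fun N => ?_
    rw [intervalIntegral.integral_sub hSi (hpi N)]
    ring
  · intro m
    obtain ⟨C, hC, h⟩ := hM m
    refine ⟨C, hC, fun k N hN => ?_⟩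
    have h1 := fatou hW hl (T := k) (N := N) fun M hM' => h k N M hN hM'
    rw [restrict_Ioc_eq_restrict_Icc] at h1
    have hsub : {y : ℝ | (k : ℝ) ≤ y ∧ y ≤ k + 1 ∧ 1 ≤ |S y - RO.part W N y|} ⊆
        Set.Icc (k : ℝ) (k + 1) := fun y hy => ⟨hy.1, hy.2.1⟩
    rw [← Measure.restrict_eq_self volume hsub]
    refine le_trans (measure_mono (t := {y : ℝ | 1 ≤ ENNReal.ofReal ((S y - RO.part W N y) ^ 2)}) ?_) ?_
    · rintro y ⟨-, -, hy⟩
      show 1 ≤ ENNReal.ofReal _
      rw [← ENNReal.ofReal_one]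
      refine ENNReal.ofReal_le_ofReal ?_
      rw [← sq_abs]
      nlinarith
    · have h2 := mul_meas_ge_le_lintegral₀
        (μ := (volume : Measure ℝ).restrict (Set.Icc (k : ℝ) (k + 1)))
        (((hDm N).pow_const 2).ennreal_ofReal.aemeasurable) 1
      rw [one_mul] at h2
      exact h2.trans h1

end Pool.Agent.H440.FP
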